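import Pool.Agent.helper38.TA.SpecA

/-!
Project TA, row IVA
-/

set_option autoImplicit false

open Complex MeasureTheory Set

namespace Pool.Agent.TA

open Pool.Agent.BA (Par GG kl kf vf fV Bw Den PP wt lam gpf rgz)
open Pool.Agent.ZT (fP Bn NN Cen GF hm Sqf cmf lamA muA prm Eta NwD Cof thC LaC LfC FEQ Prs)

theorem IVA_sum : Summable (fun d : ℕ => (d : ℝ) ^ (-2 : ℝ)) :=
  Real.summable_nat_rpow.mpr (by norm_num)

theorem IVA_one (b : ℕ → ℂ) (C₀ : ℝ) (hb0 : b 0 = 0) (hb : ∀ m : ℕ, ‖b m‖ ≤ C₀ * m) (d : ℕ) :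
    ‖b d‖ * (d : ℝ) ^ (-3 : ℝ) ≤ C₀ * (d : ℝ) ^ (-2 : ℝ) := by
  rcases Nat.eq_zero_or_pos d with rfl | hd
  · rw [hb0]; simp
  · have hd' : (0 : ℝ) < d := by exact_mod_cast hd
    have h1 : (d : ℝ) ^ (-2 : ℝ) = d * (d : ℝ) ^ (-3 : ℝ) := by
      nth_rewrite 2 [← Real.rpow_one (d : ℝ)]
      rw [← Real.rpow_add hd']; norm_num
    rw [h1, ← mul_assoc]
    exact mul_le_mul_of_nonneg_right (hb d) (by positivity)

theorem IVA (hGDA : GDA_stmt) : IVA_stmt := by
  intro n V _ _ g C₁ C₀ a b hg hc v x hx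
  have hC₀ : 0 ≤ C₀ := hc.pos.le
  obtain ⟨-, -, hdec, -, -⟩ := hGDA n V g C₁ C₀ a b hg hc
  constructor
  · obtain ⟨C, hC⟩ := hdec 0 v 3 le_rfl
    have hs : Summable (fun d : ℕ => (C₀ * (d : ℝ) ^ (-2 : ℝ)) * (C * x ^ (-3 : ℝ))) :=
      (IVA_sum.mul_left C₀).mul_right _
    refine Summable.of_nonneg_of_le (fun _ => norm_nonneg _) (fun d => ?_) hs
    have hCnn : 0 ≤ C := by
      have := hC 1 one_pos
      rw [Real.one_rpow, mul_one] at this
      exact (norm_nonneg _).trans this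
    rcases Nat.eq_zero_or_pos d with rfl | hd
    · rw [hc.b0, zero_mul, norm_zero]; positivity
    · have hd' : (0 : ℝ) < d := by exact_mod_cast hd
      rw [norm_mul]
      calc ‖b d‖ * ‖GX g a 0 v (d * x)‖ ≤ ‖b d‖ * (C * (d * x) ^ (-3 : ℝ)) :=
            mul_le_mul_of_nonneg_left (hC _ (by positivity)) (norm_nonneg _)
        _ = (‖b d‖ * (d : ℝ) ^ (-3 : ℝ)) * (C * x ^ (-3 : ℝ)) := by
            rw [Real.mul_rpow hd'.le hx.le]; ring
        _ ≤ _ := mul_le_mul_of_nonneg_right (IVA_one b C₀ hc.b0 hc.bdb d) (by positivity)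
  · obtain ⟨C, hC⟩ := hg.dec 0 v 3 (by norm_num)
    have hCnn : 0 ≤ C := by
      have := hC 1 one_pos
      rw [Real.one_rpow, mul_one] at this
      exact (norm_nonneg _).trans this
    have hf : Summable (fun p : ℕ × ℕ => b p.1 * (a p.2 * g 0 v (p.2 * (p.1 * x)))) := by
      have hs : Summable (fun p : ℕ × ℕ => (C₀ * (p.1 : ℝ) ^ (-2 : ℝ)) * (C₀ * (p.2 : ℝ) ^ (-2 : ℝ) * (C * x ^ (-3 : ℝ)))) :=
        Summable.mul_of_nonneg (IVA_sum.mul_left C₀) ((IVA_sum.mul_left C₀).mul_right _)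
          (fun _ => by positivity) (fun _ => by positivity)
      refine Summable.of_norm_bounded hs fun p => ?_
      obtain ⟨d, e⟩ := p
      simp only
      rcases Nat.eq_zero_or_pos d with rfl | hd
      · rw [hc.b0, zero_mul, norm_zero]; positivity
      rcases Nat.eq_zero_or_pos e with rfl | he
      · rw [hc.a0, zero_mul, mul_zero, norm_zero]; positivity
      have hd' : (0 : ℝ) < d := by exact_mod_cast hd
      have he' : (0 : ℝ) < e := by exact_mod_cast he
      rw [norm_mul, norm_mul]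
      calc ‖b d‖ * (‖a e‖ * ‖g 0 v (e * (d * x))‖) ≤
            ‖b d‖ * (‖a e‖ * (C * (e * (d * x)) ^ (-3 : ℝ))) := by
            refine mul_le_mul_of_nonneg_left ?_ (norm_nonneg _)
            exact mul_le_mul_of_nonneg_left (hC _ (by positivity)) (norm_nonneg _)
        _ = (‖b d‖ * (d : ℝ) ^ (-3 : ℝ)) * ((‖a e‖ * (e : ℝ) ^ (-3 : ℝ)) * (C * x ^ (-3 : ℝ))) := by
            rw [Real.mul_rpow he'.le (by positivity), Real.mul_rpow hd'.le hx.le]; ring
        _ ≤ _ := by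
            refine mul_le_mul (IVA_one b C₀ hc.b0 hc.bdb d) ?_ (by positivity) (by positivity)
            exact mul_le_mul_of_nonneg_right (IVA_one a C₀ hc.a0 hc.bda e) (by positivity)
    have h1 : ∑' d : ℕ, b d * GX g a 0 v (d * x) =
        ∑' p : ℕ × ℕ, b p.1 * (a p.2 * g 0 v (p.2 * (p.1 * x))) := by
      rw [hf.tsum_prod]
      refine tsum_congr fun d => ?_
      exact (tsum_mul_left (f := fun e : ℕ => a e * g 0 v (e * (d * x))) (a := b d)).symm
    rw [h1]
    have h2 := (Equiv.sigmaFiberEquiv (fun p : ℕ × ℕ => p.2 * p.1)).tsum_eq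
      (fun p : ℕ × ℕ => b p.1 * (a p.2 * g 0 v (p.2 * (p.1 * x))))
    rw [← h2]
    have h3 : Summable ((fun p : ℕ × ℕ => b p.1 * (a p.2 * g 0 v (p.2 * (p.1 * x)))) ∘
      (Equiv.sigmaFiberEquiv (fun p : ℕ × ℕ => p.2 * p.1))) :=
      (Equiv.summable_iff _).mpr hf
    have h4 := h3.tsum_sigma
    simp only [Function.comp] at h4
    rw [h4]
    have h5 : ∀ m : ℕ, (∑' q : {p : ℕ × ℕ // p.2 * p.1 = m},
        b ((Equiv.sigmaFiberEquiv (fun p : ℕ × ℕ => p.2 * p.1)) ⟨m, q⟩).1 *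
          (a ((Equiv.sigmaFiberEquiv (fun p : ℕ × ℕ => p.2 * p.1)) ⟨m, q⟩).2 *
          g 0 v (((Equiv.sigmaFiberEquiv (fun p : ℕ × ℕ => p.2 * p.1)) ⟨m, q⟩).2 *
            (((Equiv.sigmaFiberEquiv (fun p : ℕ × ℕ => p.2 * p.1)) ⟨m, q⟩).1 * x)))) =
        if m = 1 then g 0 v x else 0 := by
      intro m
      have h6 : ∀ q : {p : ℕ × ℕ // p.2 * p.1 = m},
          b ((Equiv.sigmaFiberEquiv (fun p : ℕ × ℕ => p.2 * p.1)) ⟨m, q⟩).1 *
          (a ((Equiv.sigmaFiberEquiv (fun p : ℕ × ℕ => p.2 * p.1)) ⟨m, q⟩).2 *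
          g 0 v (((Equiv.sigmaFiberEquiv (fun p : ℕ × ℕ => p.2 * p.1)) ⟨m, q⟩).2 *
            (((Equiv.sigmaFiberEquiv (fun p : ℕ × ℕ => p.2 * p.1)) ⟨m, q⟩).1 * x))) =
          (a q.1.2 * b q.1.1) * g 0 v (m * x) := by
        rintro ⟨⟨d, e⟩, hq⟩
        have hm : (m : ℝ) = e * d := by rw [← hq]; push_cast; ring
        simp only [Equiv.sigmaFiberEquiv, Equiv.coe_fn_mk]
        rw [hm]
        have : (e : ℝ) * (d * x) = e * d * x := by ring
        rw [this]
        ring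
      rw [tsum_congr h6, tsum_mul_right]
      have h7 : ∑' q : {p : ℕ × ℕ // p.2 * p.1 = m}, a q.1.2 * b q.1.1 = if m = 1 then 1 else 0 := by
        rcases Nat.eq_zero_or_pos m with rfl | hm
        · rw [if_neg (by norm_num)]
          have : ∀ q : {p : ℕ × ℕ // p.2 * p.1 = 0}, a q.1.2 * b q.1.1 = 0 := by
            rintro ⟨⟨d, e⟩, hq⟩
            rcases Nat.mul_eq_zero.mp hq with h | h
            · simp only at h ⊢
              rw [h, hc.a0, zero_mul]
            · simp only at h ⊢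
              rw [h, hc.b0, mul_zero]
          rw [tsum_congr this, tsum_zero]
        · have h8 := hc.inv m
          rw [← h8]
          have h9 : ∑' q : {p : ℕ × ℕ // p.2 * p.1 = m}, a q.1.2 * b q.1.1 =
              ∑' q : {p : ℕ × ℕ // p ∈ m.divisorsAntidiagonal}, a q.1.1 * b q.1.2 := by
            have he : ∀ p : ℕ × ℕ, p ∈ m.divisorsAntidiagonal ↔
                (Equiv.prodComm ℕ ℕ p).2 * (Equiv.prodComm ℕ ℕ p).1 = m := by
              intro p
              rw [Nat.mem_divisorsAntidiagonal]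
              constructor
              · intro h
                exact h.1
              · intro h
                exact ⟨h, hm.ne'⟩
            let e : {p : ℕ × ℕ // p ∈ m.divisorsAntidiagonal} ≃ {p : ℕ × ℕ // p.2 * p.1 = m} :=
              (Equiv.prodComm ℕ ℕ).subtypeEquiv he
            exact (Equiv.tsum_eq e (fun q => a q.1.2 * b q.1.1)).symm
          rw [h9]
          exact Finset.tsum_subtype m.divisorsAntidiagonal (fun q : ℕ × ℕ => a q.1 * b q.2)
      rw [h7]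
      split_ifs with h
      · rw [one_mul, h, Nat.cast_one, one_mul]
      · rw [zero_mul]
    rw [tsum_congr h5, tsum_ite_eq]

end Pool.Agent.TA
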