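import Pool.Agent.helper38.TA.SpecR

/-!
Project TA, row N1R: the composite numbers with a large greatest prime factor
-/

set_option autoImplicit false

open Complex MeasureTheory Set

namespace Pool.Agent.TA

open Pool.Agent.BA (Par GG kl kf vf fV Bw Den PP wt lam gpf rgz)

theorem N1R_gpf (m : ℕ) (hm : 2 ≤ m) : (gpf m).Prime ∧ gpf m ∣ m := by
  have hne : m.primeFactors.Nonempty := by
    rw [Finset.nonempty_iff_ne_empty]
    intro h
    rw [Nat.primeFactors_eq_empty] at h
    omega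
  obtain ⟨p, hp, he⟩ := Finset.exists_mem_eq_sup m.primeFactors hne id
  have h : gpf m = p := he
  rw [h]
  exact ⟨Nat.prime_of_mem_primeFactors hp, Nat.dvd_of_mem_primeFactors hp⟩

theorem N1R_Bw0 (L x : ℝ) (hx : 0 ≤ x) : 0 ≤ Bw L x := by
  unfold Bw
  split_ifs
  · positivity
  · positivity

theorem N1R_MB0 (L : ℝ) (f : ℝ → ℝ) : 0 ≤ MY L f := by
  unfold MY
  refine setIntegral_nonneg measurableSet_Ioi fun x hx => ?_
  exact mul_nonneg (N1R_Bw0 L x (le_of_lt hx)) (abs_nonneg _)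

theorem N1R_key (q x₀ : ℝ) (d p : ℕ) (hq : 1 < q) (hx₀ : 0 < x₀) (hL : -6 * Real.log x₀ ≤ Real.log q)
    (hd : 2 ≤ d) (hdx : x₀ * √q ≤ d) (hp : d ^ 20 ≤ p) :
    Bw (Real.log q) (p / √q) ≤ 2 * Bw (Real.log q) (d * p / √q) := by
  have hq0 : 0 < q := by linarith
  have hsq : 0 < √q := Real.sqrt_pos.2 hq0
  have hL0 : 0 < Real.log q := Real.log_pos hq
  have hd0 : (0 : ℝ) < d := by exact_mod_cast (by omega : 0 < d)
  have hp0' : 0 < p := lt_of_lt_of_le (Nat.pow_pos (by omega : 0 < d)) hp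
  have hp0 : (0 : ℝ) < p := by exact_mod_cast hp0'
  have hlogd : Real.log q ≤ 3 * Real.log d := by
    have h1 : Real.log (x₀ * √q) ≤ Real.log d := Real.log_le_log (by positivity) hdx
    rw [Real.log_mul hx₀.ne' hsq.ne', Real.log_sqrt hq0.le] at h1
    linarith
  have hlogp : 20 * Real.log d ≤ Real.log p := by
    have h1 : Real.log ((d : ℝ) ^ 20) ≤ Real.log p := Real.log_le_log (by positivity) (by exact_mod_cast hp)
    rw [Real.log_pow] at h1
    exact_mod_cast h1
  have hlogd0 : 0 < Real.log d := by linarith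
  have e1 : Real.log (p / √q) = Real.log p - Real.log q / 2 := by
    rw [Real.log_div hp0.ne' hsq.ne', Real.log_sqrt hq0.le]
  have e2 : Real.log (d * p / √q) = Real.log d + (Real.log p - Real.log q / 2) := by
    rw [Real.log_div (by positivity) hsq.ne', Real.log_mul hd0.ne' hp0.ne', Real.log_sqrt hq0.le]
    ring
  obtain ⟨A, hA⟩ : ∃ A, A = Real.log p - Real.log q / 2 := ⟨_, rfl⟩
  rw [← hA] at e1 e2
  have hAd : 18 * Real.log d ≤ A := by linarith
  have hn1 : ¬ (p : ℝ) / √q ≤ 1 := by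
    intro h
    have := Real.log_nonpos (by positivity) h
    rw [e1] at this
    linarith
  have hn2 : ¬ (d : ℝ) * p / √q ≤ 1 := by
    intro h
    have := Real.log_nonpos (by positivity) h
    rw [e2] at this
    linarith
  unfold Bw
  rw [if_neg hn1, if_neg hn2, e1, e2]
  obtain ⟨L, hLdef⟩ : ∃ L, L = Real.log q := ⟨_, rfl⟩
  rw [← hLdef] at hL0 ⊢
  have hu : 0 < 1 + A / L := by
    have : 0 < A := by linarith
    positivity
  have hw : 0 < 1 + (Real.log d + A) / L := by
    have : 0 < Real.log d + A := by linarith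
    positivity
  have hwu : 1 + (Real.log d + A) / L ≤ 19 / 18 * (1 + A / L) := by
    have h1 : Real.log d / L ≤ (A / L) / 18 := by
      rw [div_div, div_le_div_iff₀ hL0 (by positivity)]
      nlinarith
    have h2 : (Real.log d + A) / L = Real.log d / L + A / L := by ring
    rw [h2]
    linarith
  have h3 : (1 + (Real.log d + A) / L) ^ 2 ≤ 2 * (1 + A / L) ^ 2 := by
    calc (1 + (Real.log d + A) / L) ^ 2 ≤ (19 / 18 * (1 + A / L)) ^ 2 := pow_le_pow_left₀ hw.le hwu 2
      _ = 361 / 324 * (1 + A / L) ^ 2 := by ring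
      _ ≤ 2 * (1 + A / L) ^ 2 := by
          have : 0 ≤ (1 + A / L) ^ 2 := sq_nonneg _
          nlinarith
  rw [inv_eq_one_div, inv_eq_one_div, mul_one_div, div_le_div_iff₀ (by positivity) (by positivity)]
  linarith

open Classical in
theorem N1R (hU2R : U2R_stmt) (bLM : Pool.Agent.BA.LM_stmt) (bLS : Pool.Agent.BA.LS_stmt)
    (bPS : Pool.Agent.BA.PS_stmt) (bBW : Pool.Agent.BA.BW_stmt) : N1R_stmt := by
  intro V _ _ g C₁ κ N₀ S x₀ hμ hS hx0 hx1
  obtain ⟨C₂, hC₂, q₂, hU⟩ := hU2R V g C₁ κ N₀ S x₀ hμ hS hx0 hx1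
  obtain ⟨C₃, hC₃, q₃, hq₃, hP⟩ := bPS κ N₀ S x₀ hS hx0 hx1
  refine ⟨4 * C₂ * C₃, 1 / (2 * C₃), by positivity, by positivity,
    max (max q₂ q₃) (max 3 (Real.exp (-6 * Real.log x₀))), ?_⟩
  intro q hq E hE hEc v
  have hqU : q₂ ≤ q := (le_max_left _ _).trans ((le_max_left _ _).trans hq)
  have hqP : q₃ ≤ q := (le_max_right _ _).trans ((le_max_left _ _).trans hq)
  have hq3 : 3 ≤ q := (le_max_left _ _).trans ((le_max_right _ _).trans hq)
  have hqe : Real.exp (-6 * Real.log x₀) ≤ q := (le_max_right _ _).trans ((le_max_right _ _).trans hq)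
  have hq0 : 0 < q := by linarith
  have hq1 : 1 < q := by linarith
  have hsq : 0 < √q := Real.sqrt_pos.2 hq0
  have hL0 : 0 < Real.log q := Real.log_pos hq1
  have hLx : -6 * Real.log x₀ ≤ Real.log q := (Real.le_log_iff_exp_le hq0).2 hqe
  obtain ⟨hw, hsw, htw, _, _⟩ := hP q hqP
  obtain ⟨l1, l2, l3, _, l5, _⟩ := bLM (fun p => E * wt S x₀ q p) (fun p => E * wt S x₀ q p)
  have he0 : ∀ p, 0 ≤ E * wt S x₀ q p := fun p => mul_nonneg hE (hw p).1
  have hlam0 : ∀ m, 0 ≤ lam (fun p => E * wt S x₀ q p) m := fun m => (l5 he0 (fun p => le_rfl) m).1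
  have he1 : ∀ p : ℕ, ¬ p.Prime → E * wt S x₀ q p = 0 := by
    intro p hp
    by_contra h
    exact hp ((hw p).2.2.2 (fun h0 => h (by rw [h0, mul_zero]))).1
  have hes : Summable (fun p : ℕ => E * wt S x₀ q p / p) := by
    refine (hsw.mul_left E).congr fun p => ?_
    rw [mul_div_assoc]
  have hte : ∑' p : ℕ, E * wt S x₀ q p / p ≤ E * (C₃ * Real.log q) := by
    have h1 : ∑' p : ℕ, E * wt S x₀ q p / p = E * ∑' p : ℕ, wt S x₀ q p / p := by
      rw [← tsum_mul_left]
      refine tsum_congr fun p => ?_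
      rw [mul_div_assoc]
    rw [h1]
    exact mul_le_mul_of_nonneg_left htw hE
  have hhalf : E * (C₃ * Real.log q) ≤ 1 / 2 := by
    calc E * (C₃ * Real.log q) = C₃ * (E * Real.log q) := by ring
      _ ≤ C₃ * (1 / (2 * C₃)) := mul_le_mul_of_nonneg_left hEc hC₃.le
      _ = 1 / 2 := by field_simp
  obtain ⟨hls, hlt⟩ := bLS (fun p => E * wt S x₀ q p) he0 he1 hes (hte.trans hhalf)
  have hM0 : 0 ≤ MY (Real.log q) (g 0 v) := N1R_MB0 _ _
  -- prime factors of `d` when `lam d` is not zero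
  have hd0 : ∀ d : ℕ, 2 ≤ d → lam (fun p => E * wt S x₀ q p) d ≠ 0 → x₀ * √q ≤ d := by
    intro d hd hne
    obtain ⟨hp1, hp2⟩ := N1R_gpf d hd
    obtain ⟨k, hk⟩ := hp2
    have hk0 : k ≠ 0 := by
      rintro rfl
      omega
    have h1 : lam (fun p => E * wt S x₀ q p) d = E * wt S x₀ q (gpf d) * lam (fun p => E * wt S x₀ q p) k := by
      nth_rewrite 1 [hk]
      rw [l3 _ _ hp1.ne_zero hk0, l2 _ hp1]
    have h2 : wt S x₀ q (gpf d) ≠ 0 := by
      intro h0
      apply hne
      rw [h1, h0]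
      ring
    have h3 := ((hw (gpf d)).2.2.2 h2).2
    refine h3.trans ?_
    have : gpf d ≤ d := Nat.le_of_dvd (by omega) ⟨k, hk⟩
    exact_mod_cast this
  -- one term
  have hterm : ∀ m : ℕ, (2 ≤ m ∧ ¬ m.Prime ∧ (m / gpf m) ^ 20 ≤ gpf m) → 2 ≤ m / gpf m ∧
      lam (fun p => E * wt S x₀ q p) m * |g 0 v (m / √q)| ≤
      lam (fun p => E * wt S x₀ q p) (m / gpf m) * (2 * E) *
        (if gpf m ∈ PP S x₀ q ∧ (m / gpf m) ^ 20 ≤ gpf m then
          Real.log (gpf m) * Bw (Real.log q) ((m / gpf m : ℕ) * (gpf m : ℝ) / √q) *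
            |g 0 v ((m / gpf m : ℕ) * (gpf m : ℝ) / √q)| else 0) := by
    rintro m ⟨hm2, hmp, hm20⟩
    obtain ⟨hp1, hp2⟩ := N1R_gpf m hm2
    obtain ⟨p, hp⟩ : ∃ p, p = gpf m := ⟨_, rfl⟩
    obtain ⟨d, hd⟩ : ∃ d, d = m / gpf m := ⟨_, rfl⟩
    rw [← hd] at hm20 ⊢
    rw [← hp] at hm20 hp1 hp2 hd ⊢
    have hmdp : m = d * p := by
      rw [hd]
      exact (Nat.div_mul_cancel hp2).symm
    have hdne0 : d ≠ 0 := by
      rintro rfl
      omega
    have hdne1 : d ≠ 1 := by
      rintro rfl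
      rw [one_mul] at hmdp
      exact hmp (hmdp ▸ hp1)
    have hd2 : 2 ≤ d := by omega
    refine ⟨hd2, ?_⟩
    have hlm : lam (fun p => E * wt S x₀ q p) m = lam (fun p => E * wt S x₀ q p) d * (E * wt S x₀ q p) := by
      rw [hmdp, l3 _ _ hdne0 hp1.ne_zero, l2 _ hp1]
    have hcast : (m : ℝ) = (d : ℝ) * p := by
      rw [hmdp]
      push_cast
      ring
    rw [hlm, hcast]
    by_cases hld : lam (fun p => E * wt S x₀ q p) d = 0
    · rw [hld]
      simp
    · by_cases hPP : p ∈ PP S x₀ q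
      · rw [if_pos ⟨hPP, hm20⟩]
        have hwp : wt S x₀ q p = Real.log p * Bw (Real.log q) (p / √q) := by
          unfold wt
          rw [if_pos hPP]
        have hk := N1R_key q x₀ d p hq1 hx0 hLx hd2 (hd0 d hd2 hld) hm20
        have hlp : 0 ≤ Real.log p := Real.log_natCast_nonneg p
        rw [hwp]
        calc lam (fun p => E * wt S x₀ q p) d * (E * (Real.log p * Bw (Real.log q) (p / √q))) *
              |g 0 v (d * p / √q)|
            ≤ lam (fun p => E * wt S x₀ q p) d * (E * (Real.log p * (2 * Bw (Real.log q) (d * p / √q)))) *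
              |g 0 v (d * p / √q)| := by
              refine mul_le_mul_of_nonneg_right ?_ (abs_nonneg _)
              refine mul_le_mul_of_nonneg_left ?_ (hlam0 d)
              refine mul_le_mul_of_nonneg_left ?_ hE
              exact mul_le_mul_of_nonneg_left hk hlp
          _ = _ := by ring
      · have hwp : wt S x₀ q p = 0 := by
          unfold wt
          rw [if_neg hPP]
        rw [hwp, if_neg (fun h => hPP h.1)]
        simp
  have key : ∀ s : Finset ℕ, ∑ m ∈ s, (if 2 ≤ m ∧ ¬ m.Prime ∧ (m / gpf m) ^ 20 ≤ gpf m then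
      lam (fun p => E * wt S x₀ q p) m * |g 0 v (m / √q)| else 0) ≤
      4 * C₂ * C₃ * (E * Real.log q) * (E * √q) * MY (Real.log q) (g 0 v) := by
    intro s
    rw [← Finset.sum_filter]
    obtain ⟨s', hs'⟩ : ∃ s', s' = s.filter (fun m => 2 ≤ m ∧ ¬ m.Prime ∧ (m / gpf m) ^ 20 ≤ gpf m) := ⟨_, rfl⟩
    rw [← hs']
    have hmem : ∀ m ∈ s', 2 ≤ m ∧ ¬ m.Prime ∧ (m / gpf m) ^ 20 ≤ gpf m := by
      intro m hm
      rw [hs', Finset.mem_filter] at hm
      exact hm.2
    let K : ℕ × ℕ → ℝ := fun x => lam (fun p => E * wt S x₀ q p) x.1 * (2 * E) *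
        (if x.2 ∈ PP S x₀ q ∧ x.1 ^ 20 ≤ x.2 then
          Real.log x.2 * Bw (Real.log q) (x.1 * x.2 / √q) * |g 0 v (x.1 * x.2 / √q)| else 0)
    have hK0 : ∀ x, 0 ≤ K x := by
      intro x
      refine mul_nonneg (mul_nonneg (hlam0 _) (by positivity)) ?_
      split_ifs
      · refine mul_nonneg (mul_nonneg (Real.log_natCast_nonneg _) (N1R_Bw0 _ _ (by positivity))) (abs_nonneg _)
      · exact le_rfl
    have hinj : ∀ m ∈ s', ∀ m' ∈ s', (m / gpf m, gpf m) = (m' / gpf m', gpf m') → m = m' := by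
      intro m hm m' hm' h
      have h1 : m / gpf m = m' / gpf m' := congrArg Prod.fst h
      have h2 : gpf m = gpf m' := congrArg Prod.snd h
      have e1 := Nat.div_mul_cancel (N1R_gpf m (hmem m hm).1).2
      have e2 := Nat.div_mul_cancel (N1R_gpf m' (hmem m' hm').1).2
      rw [← e1, ← e2, h1, h2]
    have hbound : ∀ d ∈ s'.image (fun m => m / gpf m), ∑ p ∈ s'.image gpf, K (d, p) ≤
        2 * C₂ * (E * √q) * MY (Real.log q) (g 0 v) *
          (if 2 ≤ d then lam (fun p => E * wt S x₀ q p) d / d else 0) := by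
      intro d hd
      rw [Finset.mem_image] at hd
      obtain ⟨m, hm, rfl⟩ := hd
      have hd2 := (hterm m (hmem m hm)).1
      rw [if_pos hd2]
      obtain ⟨d, hdd⟩ : ∃ d, d = m / gpf m := ⟨_, rfl⟩
      rw [← hdd] at hd2 ⊢
      obtain ⟨hus, hut⟩ := hU q hqU d v (by omega)
      have hsum : ∑ p ∈ s'.image gpf, (if p ∈ PP S x₀ q ∧ d ^ 20 ≤ p then
          Real.log p * Bw (Real.log q) (d * p / √q) * |g 0 v (d * p / √q)| else 0) ≤
          C₂ * (√q / d) * MY (Real.log q) (g 0 v) := by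
        refine le_trans (hus.sum_le_tsum _ ?_) hut
        intro p _
        split_ifs
        · refine mul_nonneg (mul_nonneg (Real.log_natCast_nonneg _) (N1R_Bw0 _ _ (by positivity))) (abs_nonneg _)
        · exact le_rfl
      have hKd : ∑ p ∈ s'.image gpf, K (d, p) = lam (fun p => E * wt S x₀ q p) d * (2 * E) *
          ∑ p ∈ s'.image gpf, (if p ∈ PP S x₀ q ∧ d ^ 20 ≤ p then
          Real.log p * Bw (Real.log q) (d * p / √q) * |g 0 v (d * p / √q)| else 0) := by
        rw [Finset.mul_sum]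
      rw [hKd]
      have hdR : (0 : ℝ) < d := by exact_mod_cast (by omega : 0 < d)
      calc lam (fun p => E * wt S x₀ q p) d * (2 * E) *
          ∑ p ∈ s'.image gpf, (if p ∈ PP S x₀ q ∧ d ^ 20 ≤ p then
          Real.log p * Bw (Real.log q) (d * p / √q) * |g 0 v (d * p / √q)| else 0)
          ≤ lam (fun p => E * wt S x₀ q p) d * (2 * E) * (C₂ * (√q / d) * MY (Real.log q) (g 0 v)) :=
            mul_le_mul_of_nonneg_left hsum (mul_nonneg (hlam0 d) (by positivity))
        _ = _ := by ring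
    calc ∑ m ∈ s', lam (fun p => E * wt S x₀ q p) m * |g 0 v (m / √q)|
        ≤ ∑ m ∈ s', K (m / gpf m, gpf m) := Finset.sum_le_sum fun m hm => (hterm m (hmem m hm)).2
      _ = ∑ x ∈ s'.image (fun m => (m / gpf m, gpf m)), K x := (Finset.sum_image hinj).symm
      _ ≤ ∑ x ∈ (s'.image (fun m => m / gpf m)) ×ˢ (s'.image gpf), K x := by
          refine Finset.sum_le_sum_of_subset_of_nonneg ?_ (fun x _ _ => hK0 x)
          intro x hx
          rw [Finset.mem_image] at hx
          obtain ⟨m, hm, rfl⟩ := hx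
          rw [Finset.mem_product]
          exact ⟨Finset.mem_image_of_mem _ hm, Finset.mem_image_of_mem _ hm⟩
      _ = ∑ d ∈ s'.image (fun m => m / gpf m), ∑ p ∈ s'.image gpf, K (d, p) := Finset.sum_product _ _ _
      _ ≤ ∑ d ∈ s'.image (fun m => m / gpf m), 2 * C₂ * (E * √q) * MY (Real.log q) (g 0 v) *
          (if 2 ≤ d then lam (fun p => E * wt S x₀ q p) d / d else 0) := Finset.sum_le_sum hbound
      _ = 2 * C₂ * (E * √q) * MY (Real.log q) (g 0 v) * ∑ d ∈ s'.image (fun m => m / gpf m),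
          (if 2 ≤ d then lam (fun p => E * wt S x₀ q p) d / d else 0) := by rw [Finset.mul_sum]
      _ ≤ 2 * C₂ * (E * √q) * MY (Real.log q) (g 0 v) * (2 * (E * (C₃ * Real.log q))) := by
          refine mul_le_mul_of_nonneg_left ?_ (by positivity)
          have hs2 : Summable (fun d : ℕ => if 2 ≤ d then lam (fun p => E * wt S x₀ q p) d / d else 0) := by
            refine Summable.of_nonneg_of_le (fun d => ?_) (fun d => ?_) hls
            · split_ifs
              · exact div_nonneg (hlam0 d) (Nat.cast_nonneg d)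
              · exact le_rfl
            · split_ifs
              · exact le_rfl
              · exact div_nonneg (hlam0 d) (Nat.cast_nonneg d)
          refine le_trans (hs2.sum_le_tsum _ ?_) (hlt.trans ?_)
          · intro d _
            split_ifs
            · exact div_nonneg (hlam0 d) (Nat.cast_nonneg d)
            · exact le_rfl
          · linarith
      _ = _ := by ring
  have hnn : ∀ m : ℕ, 0 ≤ (if 2 ≤ m ∧ ¬ m.Prime ∧ (m / gpf m) ^ 20 ≤ gpf m then
      lam (fun p => E * wt S x₀ q p) m * |g 0 v (m / √q)| else 0) := by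
    intro m
    split_ifs
    · exact mul_nonneg (hlam0 m) (abs_nonneg _)
    · exact le_rfl
  have hsm := summable_of_sum_le hnn key
  exact ⟨hsm, hsm.tsum_le_of_sum_le key⟩

end Pool.Agent.TA
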